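import Pool.Agent.R598.IO.Fin

/-!
# Each stable theory is below each unstable theory in the order for aleph_1-saturated models
-/

set_option autoImplicit false

open FirstOrder Cardinal

/-- Question Q2: for all complete theories `T₀`, `T₁` in countable vocabularies, if `T₀` is stable
and `T₁` is unstable, then `T₀` is below `T₁` in the interpretability order for
`ℵ₁`-saturated models. -/
theorem Pool.Agent.Results.MP_491b55_lc.StableBelowUnstable.result
    {L₀ L₁ : FirstOrder.Language.{0, 0}} (h₀ : L₀.card ≤ ℵ₀) (h₁ : L₁.card ≤ ℵ₀)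
    (T₀ : L₀.Theory) (T₁ : L₁.Theory) (hT₀ : T₀.IsComplete) (_hT₁ : T₁.IsComplete)
    (hs : ¬ Pool.Agent.R598.IO.Unstable T₀) (hu : Pool.Agent.R598.IO.Unstable T₁) :
    Pool.Agent.R598.IO.LeStar T₀ T₁ :=
  Pool.Agent.R598.IO.leStar h₀ h₁ T₀ T₁ hT₀ hs hu
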